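import Pool.Agent.Helper55.SCH.Goals

set_option autoImplicit false

/-!
# Packet SCH-CROSS (MP_c13f7d_co)

The goal `G_CROSS` of `Pool/Agent/Helper55/SCH/Goals.lean` (no hypotheses are used).
-/

namespace Pool.Agent.Helper74.SCH

open Finset Pool.Agent.Helper55.SCH

theorem Phi_ge (lam t : ℝ) : -1 ≤ Phi lam t := by
  unfold Phi
  exact le_max_left _ _

theorem Phi_le (lam t : ℝ) : Phi lam t ≤ 1 := by
  unfold Phi
  exact max_le (by norm_num) (min_le_left _ _)

theorem Phi_neg (lam t : ℝ) (hlam : 0 < lam) (ht : t ≤ -lam) : Phi lam t = -1 := by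
  unfold Phi
  have h1 : t / lam ≤ -1 := by
    rw [div_le_iff₀ hlam]
    linarith
  have h2 : min 1 (t / lam) ≤ -1 := le_trans (min_le_right _ _) h1
  exact max_eq_left h2

theorem s_bd {c u : ℕ} {lam : ℝ} {s r : ℕ → ℝ} (h : Crit1 c u lam s r) (x : ℕ) :
    -1 ≤ s x ∧ s x ≤ 1 := by
  by_cases hx : x ∈ Icc 1 c
  · rw [h.hs x hx]
    have h1 := Phi_ge lam (g1 c u s r x)
    have h2 := Phi_le lam (g1 c u s r x)
    constructor <;> linarith
  · rw [h.s0 x hx]
    constructor <;> norm_num

theorem s_one {c u : ℕ} {lam : ℝ} {s r : ℕ → ℝ} (h : Crit1 c u lam s r) (x : ℕ)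
    (hx : x ∈ Icc 1 c) (hg : g1 c u s r x ≤ -lam) : s x = 1 := by
  rw [h.hs x hx, Phi_neg lam _ (by linarith [h.lam1]) hg]
  norm_num

theorem Sr_eq {c u : ℕ} {lam : ℝ} {s r : ℕ → ℝ} (h : Crit1 c u lam s r) (k : ℕ) (hk : u ≤ k) :
    S r k = S r u := by
  unfold S
  symm
  apply Finset.sum_subset
  · intro x hx
    rw [mem_Icc] at hx ⊢
    omega
  · intro x _ hx
    exact h.r0 x hx

theorem goalCROSS : G_CROSS := by
  intro c u lam s r h p hp
  by_cases hall : ∀ x ∈ Ioc (c - p) c, g1 c u s r x ≤ -lam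
  · right
    have h1 : ∑ x ∈ Ioc (c - p) c, al s x = ∑ x ∈ Ioc (c - p) c, (1 : ℝ) := by
      apply Finset.sum_congr rfl
      intro x hx
      have hx' : x ∈ Icc 1 c := by
        rw [mem_Ioc] at hx
        rw [mem_Icc]
        omega
      unfold al
      rw [s_one h x hx' (hall x hx)]
      norm_num
    rw [h1, Finset.sum_const, Nat.card_Ioc, nsmul_eq_mul, mul_one]
    have h2 : c - (c - p) = p := by omega
    rw [h2]
  · left
    have hex : ∃ t : ℕ, t < p ∧ -lam < g1 c u s r (c - t) := by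
      by_contra hcon
      apply hall
      intro x hx
      rw [mem_Ioc] at hx
      by_contra hlt
      apply hcon
      refine ⟨c - x, by omega, ?_⟩
      have h3 : c - (c - x) = x := by omega
      rw [h3]
      linarith
    classical
    obtain ⟨t, ⟨htp, htg⟩, hmin⟩ : ∃ t : ℕ, (t < p ∧ -lam < g1 c u s r (c - t)) ∧
        ∀ t', t' < t → ¬ (t' < p ∧ -lam < g1 c u s r (c - t')) :=
      ⟨Nat.find hex, Nat.find_spec hex, fun t' ht' => Nat.find_min hex ht'⟩
    have hg : g1 c u s r (c - t) = S s c + S s t := by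
      unfold g1
      rw [Sr_eq h (c - t) (by omega)]
      have h4 : c - (c - t) = t := by omega
      rw [h4]
      ring
    have hal0 : ∀ x, 0 ≤ al s x := by
      intro x
      unfold al
      linarith [(s_bd h x).1]
    have h5 : ∑ x ∈ Icc 1 t, al s x * al s (c + 1 - x) ≤
        ∑ x ∈ Icc 1 p, al s x * al s (c + 1 - x) := by
      apply Finset.sum_le_sum_of_subset_of_nonneg
      · intro x hx
        rw [mem_Icc] at hx ⊢
        omega
      · intro x _ _
        exact mul_nonneg (hal0 _) (hal0 _)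
    have h6 : ∑ x ∈ Icc 1 t, al s x * al s (c + 1 - x) = ∑ x ∈ Icc 1 t, (1 + s x) / 2 := by
      apply Finset.sum_congr rfl
      intro x hx
      rw [mem_Icc] at hx
      have h7 := hmin (x - 1) (by omega)
      have h8 : g1 c u s r (c - (x - 1)) ≤ -lam := by
        by_contra hlt
        apply h7
        exact ⟨by omega, by linarith⟩
      have h9 : c - (x - 1) = c + 1 - x := by omega
      rw [h9] at h8
      have h10 : s (c + 1 - x) = 1 := s_one h _ (by rw [mem_Icc]; omega) h8
      unfold al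
      rw [h10]
      ring
    have h11 : ∑ x ∈ Icc 1 t, (1 + s x) / 2 ≥ ∑ x ∈ Icc 1 t, s x := by
      apply Finset.sum_le_sum
      intro x _
      linarith [(s_bd h x).2]
    have h12 : S s t = ∑ x ∈ Icc 1 t, s x := rfl
    rw [hg] at htg
    linarith

end Pool.Agent.Helper74.SCH
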